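import Mathlib

/-!
# The visual hull of a union of `n` disjoint convex sets need not be a union of `n` convex sets

For every `n ≥ 3` there are `n` pairwise disjoint non-empty compact convex sets in `E_n` whose
union has a visual hull that is not a union of `n` convex sets.
-/

set_option autoImplicit false

namespace Pool.Agent.Results.MP_d086ed_co.NotUnion

/-- Euclidean `n`-space -/
abbrev E (n : ℕ) := EuclideanSpace ℝ (Fin n)

/-- `A` and `B` are `𝒫`-equivalent: they have the same image under the orthogonal projection onto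
every one-dimensional linear subspace `L`. -/
def PEquiv {n : ℕ} (A B : Set (E n)) : Prop :=
  ∀ L : Submodule ℝ (E n), Module.finrank ℝ L = 1 → L.starProjection '' A = L.starProjection '' B

/-- The visual hull of `S`: the union of all sets that are `𝒫`-equivalent to `S`. -/
def visualHull {n : ℕ} (S : Set (E n)) : Set (E n) := ⋃₀ {B | PEquiv B S}

lemma starProjection_eq_iff {n : ℕ} (v : E n) (hv : v ≠ 0) (x y : E n) :
    (ℝ ∙ v).starProjection x = (ℝ ∙ v).starProjection y ↔ inner ℝ v x = inner ℝ v y := by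
  rw [Submodule.starProjection_singleton, Submodule.starProjection_singleton]
  have h0 : (‖v‖ : ℝ) ^ 2 ≠ 0 := pow_ne_zero 2 (norm_ne_zero_iff.mpr hv)
  constructor
  · intro h
    have := smul_left_injective ℝ hv h
    exact (div_left_inj' (by exact_mod_cast h0)).mp this
  · intro h; rw [h]

/-- The characterization by hyperplanes: `x` is in the visual hull of `S` iff every affine
hyperplane through `x` meets `S`. -/
lemma mem_visualHull {n : ℕ} {S : Set (E n)} {x : E n} :
    x ∈ visualHull S ↔ ∀ u : E n, u ≠ 0 → ∃ s ∈ S, inner ℝ u s = inner ℝ u x := by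
  constructor
  · rintro ⟨B, hB, hx⟩ u hu
    have h := hB (ℝ ∙ u) (finrank_span_singleton hu)
    have h1 : (ℝ ∙ u).starProjection x ∈ (ℝ ∙ u).starProjection '' B := ⟨x, hx, rfl⟩
    rw [h] at h1
    obtain ⟨s, hs, hsx⟩ := h1
    exact ⟨s, hs, (starProjection_eq_iff u hu s x).mp hsx⟩
  · intro h
    refine ⟨insert x S, ?_, Set.mem_insert _ _⟩
    intro L hL
    obtain ⟨⟨v, hvL⟩, hv0, hv⟩ := finrank_eq_one_iff'.mp hL
    have hv0' : v ≠ 0 := fun h0 => hv0 (Subtype.ext h0)
    have hLv : L = ℝ ∙ v := by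
      apply le_antisymm
      · intro w hw
        obtain ⟨c, hc⟩ := hv ⟨w, hw⟩
        rw [Submodule.mem_span_singleton]
        exact ⟨c, congrArg Subtype.val hc⟩
      · rw [Submodule.span_singleton_le_iff_mem]; exact hvL
    subst hLv
    rw [Set.image_insert_eq]
    refine Set.insert_eq_of_mem ?_
    obtain ⟨s, hs, hsx⟩ := h v hv0'
    exact ⟨s, hs, (starProjection_eq_iff v hv0' s x).mpr hsx⟩

section Construction

variable {k : ℕ}

/-- the point with first two coordinates `p, q` and the others `0` -/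
noncomputable def pt (p q : ℝ) : E (k + 3) :=
  EuclideanSpace.single 0 p + EuclideanSpace.single 1 q

lemma pt_zero (p q : ℝ) : (pt p q : E (k + 3)) 0 = p := by
  simp [pt]

lemma pt_one (p q : ℝ) : (pt p q : E (k + 3)) 1 = q := by
  simp [pt]

lemma pt_other (p q : ℝ) (i : Fin (k + 3)) (h0 : i ≠ 0) (h1 : i ≠ 1) :
    (pt p q : E (k + 3)) i = 0 := by
  simp [pt, h0, h1]

lemma inner_pt (p q : ℝ) (x : E (k + 3)) : inner ℝ (pt p q) x = p * x 0 + q * x 1 := by
  simp [pt, inner_add_left, EuclideanSpace.inner_single_left]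

lemma pt_ne_zero (p q : ℝ) (h : p ≠ 0 ∨ q ≠ 0) : (pt p q : E (k + 3)) ≠ 0 := by
  intro h'
  have h0 := pt_zero (k := k) p q
  have h1 := pt_one (k := k) p q
  rw [h'] at h0 h1
  simp at h0 h1
  rcases h with h | h
  · exact h h0.symm
  · exact h h1.symm

/-- the box condition on the further coordinates -/
def Small (x : E (k + 3)) : Prop := ∀ i : Fin (k + 3), i ≠ 0 → i ≠ 1 → -1 ≤ x i ∧ x i ≤ 1

/-- the `j`-th convex set -/
def A (j : Fin (k + 3)) : Set (E (k + 3)) :=
  if (j : ℕ) = 0 then {x | (1 ≤ x 0 ∧ x 0 ≤ 2) ∧ (0 ≤ x 1 ∧ x 1 ≤ 1) ∧ Small x}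
  else if (j : ℕ) = 1 then
    {x | (1 ≤ x 1 - x 0 ∧ x 1 - x 0 ≤ 3) ∧ (-1 ≤ x 0 + x 1 ∧ x 0 + x 1 ≤ 1) ∧ Small x}
  else if (j : ℕ) = 2 then {x | (-1 ≤ x 0 ∧ x 0 ≤ 0) ∧ (-2 ≤ x 1 ∧ x 1 ≤ -1) ∧ Small x}
  else {pt (j : ℕ) 0}

/-- the marked point of the `j`-th set -/
noncomputable def p (j : ℕ) : E (k + 3) :=
  if j = 0 then pt 1 0 else if j = 1 then pt (-1 / 2) (1 / 2) else if j = 2 then pt 0 (-1)
  else pt j 0

/-- the normal vector of the `j`-th separating hyperplane -/
noncomputable def u (j : ℕ) : E (k + 3) :=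
  if j = 0 then pt 1 0 else if j = 1 then pt (-1) 1 else if j = 2 then pt 0 (-1)
  else pt 1 0

/-- the level of the `j`-th separating hyperplane -/
noncomputable def lev (j : ℕ) : ℝ := if j ≤ 2 then 1 / 2 else j - 1 / 2

lemma u_ne_zero (j : ℕ) : (u j : E (k + 3)) ≠ 0 := by
  unfold u
  split_ifs <;> apply pt_ne_zero <;> norm_num

lemma small_pt (a b : ℝ) : Small (pt a b : E (k + 3)) := by
  intro i h0 h1
  rw [pt_other a b i h0 h1]
  norm_num

lemma mem_A_iff (j : Fin (k + 3)) (x : E (k + 3)) : x ∈ A j ↔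
    ((j : ℕ) = 0 ∧ (1 ≤ x 0 ∧ x 0 ≤ 2) ∧ (0 ≤ x 1 ∧ x 1 ≤ 1) ∧ Small x) ∨
    ((j : ℕ) = 1 ∧ (1 ≤ x 1 - x 0 ∧ x 1 - x 0 ≤ 3) ∧ (-1 ≤ x 0 + x 1 ∧ x 0 + x 1 ≤ 1) ∧
      Small x) ∨
    ((j : ℕ) = 2 ∧ (-1 ≤ x 0 ∧ x 0 ≤ 0) ∧ (-2 ≤ x 1 ∧ x 1 ≤ -1) ∧ Small x) ∨
    (3 ≤ (j : ℕ) ∧ x = pt (j : ℕ) 0) := by
  unfold A
  split_ifs with h0 h1 h2
  · rw [h0]; simp
  · rw [h1]; simp
  · rw [h2]; simp
  · simp only [Set.mem_singleton_iff, h0, h1, h2, false_and, false_or]
    have : 3 ≤ (j : ℕ) := by omega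
    simp [this]

/-- no point of the union lies on one of the separating hyperplanes -/
lemma miss (i : ℕ) (hi : i < k + 3) (j : Fin (k + 3)) (x : E (k + 3)) (hx : x ∈ A j) :
    inner ℝ (u i) x ≠ lev i := by
  rw [mem_A_iff] at hx
  unfold u lev
  by_cases c0 : i = 0
  · subst c0
    simp only [if_true, inner_pt, Nat.zero_le]
    rcases hx with ⟨_, h⟩ | ⟨_, h⟩ | ⟨_, h⟩ | ⟨hj, h⟩
    · intro h'; linarith [h.1.1]
    · intro h'; linarith [h.1.1, h.2.1.2]
    · intro h'; linarith [h.1.2]
    · rw [h, pt_zero]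
      have : (3 : ℝ) ≤ (j : ℕ) := by exact_mod_cast hj
      intro h'; linarith
  by_cases c1 : i = 1
  · subst c1
    simp only [one_ne_zero, if_false, if_true, inner_pt]
    rw [if_pos (by norm_num)]
    rcases hx with ⟨_, h⟩ | ⟨_, h⟩ | ⟨_, h⟩ | ⟨hj, h⟩
    · intro h'; linarith [h.1.1, h.2.1.2]
    · intro h'; linarith [h.1.1, h.2.1.2]
    · intro h'; linarith [h.1.1, h.2.1.2]
    · rw [h, pt_zero, pt_one]
      have : (3 : ℝ) ≤ (j : ℕ) := by exact_mod_cast hj
      intro h'; linarith
  by_cases c2 : i = 2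
  · subst c2
    simp only [OfNat.ofNat_ne_zero, if_false, OfNat.ofNat_ne_one, if_true, inner_pt]
    rw [if_pos le_rfl]
    rcases hx with ⟨_, h⟩ | ⟨_, h⟩ | ⟨_, h⟩ | ⟨hj, h⟩
    · intro h'; linarith [h.2.1.1]
    · intro h'; linarith [h.1.1, h.2.1.1]
    · intro h'; linarith [h.2.1.2]
    · rw [h, pt_zero, pt_one]
      intro h'; linarith
  · simp only [c0, c1, c2, if_false, inner_pt]
    rw [if_neg (by omega)]
    have hi3 : (3 : ℝ) ≤ i := by exact_mod_cast (by omega : 3 ≤ i)
    rcases hx with ⟨_, h⟩ | ⟨_, h⟩ | ⟨_, h⟩ | ⟨hj, h⟩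
    · intro h'; linarith [h.1.2]
    · intro h'; linarith [h.1.1, h.2.1.2]
    · intro h'; linarith [h.1.2]
    · rw [h, pt_zero, pt_one]
      intro h'
      have h2 : (2 * (j : ℕ) : ℝ) + 1 = 2 * (i : ℝ) := by linarith
      have h3 : 2 * (j : ℕ) + 1 = 2 * i := by exact_mod_cast h2
      omega

lemma p_mem (j : Fin (k + 3)) : p (j : ℕ) ∈ A j := by
  rw [mem_A_iff]
  unfold p
  by_cases c0 : (j : ℕ) = 0
  · left
    rw [if_pos c0, pt_zero, pt_one]
    exact ⟨c0, by norm_num, by norm_num, small_pt _ _⟩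
  by_cases c1 : (j : ℕ) = 1
  · right; left
    rw [if_neg c0, if_pos c1, pt_zero, pt_one]
    exact ⟨c1, by norm_num, by norm_num, small_pt _ _⟩
  by_cases c2 : (j : ℕ) = 2
  · right; right; left
    rw [if_neg c0, if_neg c1, if_pos c2, pt_zero, pt_one]
    exact ⟨c2, by norm_num, by norm_num, small_pt _ _⟩
  · right; right; right
    rw [if_neg c0, if_neg c1, if_neg c2]
    exact ⟨by omega, rfl⟩

lemma above (j : ℕ) : lev j < inner ℝ (u j : E (k + 3)) (p j) := by
  unfold lev u p
  by_cases c0 : j = 0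
  · subst c0; simp only [if_true, inner_pt, pt_zero, pt_one, Nat.zero_le]; norm_num
  by_cases c1 : j = 1
  · subst c1
    simp only [one_ne_zero, if_false, if_true, inner_pt, pt_zero, pt_one]; norm_num
  by_cases c2 : j = 2
  · subst c2
    simp only [OfNat.ofNat_ne_zero, if_false, OfNat.ofNat_ne_one, if_true, inner_pt, pt_zero,
      pt_one]; norm_num
  · simp only [c0, c1, c2, if_false, inner_pt, pt_zero, pt_one]
    rw [if_neg (by omega)]
    linarith

lemma below_zero (j : ℕ) : inner ℝ (u j : E (k + 3)) 0 < lev j := by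
  rw [inner_zero_right]
  unfold lev
  split_ifs with h
  · norm_num
  · have : (3 : ℝ) ≤ j := by exact_mod_cast (by omega : 3 ≤ j)
    linarith

lemma below (i j : ℕ) (hij : i < j) : inner ℝ (u j : E (k + 3)) (p i) < lev j := by
  have hj0 : j ≠ 0 := by omega
  by_cases c1 : j = 1
  · subst c1
    have : i = 0 := by omega
    subst this
    simp only [u, p, lev, one_ne_zero, if_false, if_true, inner_pt, pt_zero, pt_one]
    norm_num
  by_cases c2 : j = 2
  · subst c2
    have : i = 0 ∨ i = 1 := by omega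
    rcases this with rfl | rfl <;>
    · simp only [u, p, lev, OfNat.ofNat_ne_zero, if_false, OfNat.ofNat_ne_one, if_true, inner_pt,
        pt_zero, pt_one, one_ne_zero]
      norm_num
  · have h3 : (3 : ℝ) ≤ j := by exact_mod_cast (by omega : 3 ≤ j)
    unfold u lev
    simp only [hj0, c1, c2, if_false, inner_pt]
    rw [if_neg (by omega)]
    unfold p
    by_cases d0 : i = 0
    · subst d0; simp only [if_true, pt_zero, pt_one]; linarith
    by_cases d1 : i = 1
    · subst d1; simp only [one_ne_zero, if_false, if_true, pt_zero, pt_one]; linarith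
    by_cases d2 : i = 2
    · subst d2
      simp only [OfNat.ofNat_ne_zero, if_false, OfNat.ofNat_ne_one, if_true, pt_zero, pt_one]
      linarith
    · simp only [d0, d1, d2, if_false, pt_zero, pt_one]
      have : (i : ℝ) + 1 ≤ j := by exact_mod_cast hij
      linarith

lemma subset_visualHull {n : ℕ} (S : Set (E n)) : S ⊆ visualHull S :=
  fun x hx => mem_visualHull.mpr fun _ _ => ⟨x, hx, rfl⟩

lemma zero_mem : (0 : E (k + 3)) ∈ visualHull (⋃ j, A j) := by
  rw [mem_visualHull]
  intro v _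
  rw [inner_zero_right]
  obtain ⟨a, ha⟩ : ∃ a, a = v 0 := ⟨_, rfl⟩
  obtain ⟨b, hb⟩ : ∃ b, b = v 1 := ⟨_, rfl⟩
  have key : ∀ (j : Fin (k + 3)) (x y : ℝ), pt x y ∈ A j → x * a + y * b = 0 →
      ∃ s ∈ (⋃ j, A j : Set (E (k + 3))), inner ℝ v s = 0 := by
    intro j x y h1 h2
    refine ⟨pt x y, Set.mem_iUnion.mpr ⟨j, h1⟩, ?_⟩
    rw [real_inner_comm, inner_pt, ← ha, ← hb, h2]
  by_cases hab0 : a = 0 ∧ b = 0
  · refine key 0 1 0 ?_ (by rw [hab0.1, hab0.2]; ring)
    rw [mem_A_iff, pt_zero, pt_one]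
    left
    exact ⟨rfl, by norm_num, by norm_num, small_pt _ _⟩
  have hs : 0 < |a| + |b| := by
    rcases not_and_or.mp hab0 with h | h
    · have := abs_pos.mpr h; positivity
    · have := abs_pos.mpr h; positivity
  rcases le_total (a * b) 0 with hab | hab
  · have habs : |b| * a + |a| * b = 0 := by
      rcases mul_nonpos_iff.mp hab with ⟨h1, h2⟩ | ⟨h1, h2⟩
      · rw [abs_of_nonneg h1, abs_of_nonpos h2]; ring
      · rw [abs_of_nonpos h1, abs_of_nonneg h2]; ring
    rcases le_total |a| |b| with h | h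
    · have hb0 : 0 < |b| := by
        by_contra hc
        have : |b| = 0 := le_antisymm (not_lt.mp hc) (abs_nonneg b)
        rw [this] at h
        linarith [abs_nonneg a]
      refine key 0 1 (|a| / |b|) ?_ ?_
      · rw [mem_A_iff, pt_zero, pt_one]
        left
        refine ⟨rfl, by norm_num, ⟨by positivity, ?_⟩, small_pt _ _⟩
        rw [div_le_one hb0]; exact h
      · have : 1 * a + |a| / |b| * b = (|b| * a + |a| * b) / |b| := by field_simp
        rw [this, habs, zero_div]
    · have ha0 : 0 < |a| := by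
        by_contra hc
        have : |a| = 0 := le_antisymm (not_lt.mp hc) (abs_nonneg a)
        rw [this] at h
        linarith [abs_nonneg b]
      refine key 2 (-(|b| / |a|)) (-1) ?_ ?_
      · rw [mem_A_iff, pt_zero, pt_one]
        right; right; left
        refine ⟨?_, ⟨?_, ?_⟩, by norm_num, small_pt _ _⟩
        · rw [Fin.val_two]
        · rw [neg_le_neg_iff, div_le_one ha0]; exact h
        · rw [neg_nonpos]; positivity
      · have : -(|b| / |a|) * a + -1 * b = -((|b| * a + |a| * b) / |a|) := by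
          field_simp
          ring
        rw [this, habs, zero_div, neg_zero]
  · have habs : -|b| * a + |a| * b = 0 := by
      rcases mul_nonneg_iff.mp hab with ⟨h1, h2⟩ | ⟨h1, h2⟩
      · rw [abs_of_nonneg h1, abs_of_nonneg h2]; ring
      · rw [abs_of_nonpos h1, abs_of_nonpos h2]; ring
    refine key 1 (-|b| / (|a| + |b|)) (|a| / (|a| + |b|)) ?_ ?_
    · rw [mem_A_iff, pt_zero, pt_one]
      right; left
      have e1 : |a| / (|a| + |b|) - -|b| / (|a| + |b|) = 1 := by
        field_simp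
        ring
      have e2 : -|b| / (|a| + |b|) + |a| / (|a| + |b|) = (|a| - |b|) / (|a| + |b|) := by ring
      refine ⟨by rw [Fin.val_one], ?_, ?_, small_pt _ _⟩
      · rw [e1]; norm_num
      · rw [e2]
        constructor
        · rw [le_div_iff₀ hs]; linarith [abs_nonneg a]
        · rw [div_le_one hs]; linarith [abs_nonneg b]
    · have : -|b| / (|a| + |b|) * a + |a| / (|a| + |b|) * b =
          (-|b| * a + |a| * b) / (|a| + |b|) := by ring
      rw [this, habs, zero_div]

lemma convex_A (j : Fin (k + 3)) : Convex ℝ (A j) := by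
  have hS : ∀ x y : E (k + 3), Small x → Small y → ∀ a b : ℝ, 0 ≤ a → 0 ≤ b → a + b = 1 →
      Small (a • x + b • y) := by
    intro x y hx hy a b ha hb hab i h0 h1
    have hx' := hx i h0 h1
    have hy' := hy i h0 h1
    simp only [PiLp.add_apply, PiLp.smul_apply, smul_eq_mul]
    constructor <;> nlinarith
  unfold A
  split_ifs with h0 h1 h2
  · intro x hx y hy a b ha hb hab
    refine ⟨?_, ?_, hS x y hx.2.2 hy.2.2 a b ha hb hab⟩
    · simp only [PiLp.add_apply, PiLp.smul_apply, smul_eq_mul]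
      constructor <;> nlinarith [hx.1.1, hx.1.2, hy.1.1, hy.1.2]
    · simp only [PiLp.add_apply, PiLp.smul_apply, smul_eq_mul]
      constructor <;> nlinarith [hx.2.1.1, hx.2.1.2, hy.2.1.1, hy.2.1.2]
  · intro x hx y hy a b ha hb hab
    refine ⟨?_, ?_, hS x y hx.2.2 hy.2.2 a b ha hb hab⟩
    · simp only [PiLp.add_apply, PiLp.smul_apply, smul_eq_mul]
      constructor <;> nlinarith [hx.1.1, hx.1.2, hy.1.1, hy.1.2]
    · simp only [PiLp.add_apply, PiLp.smul_apply, smul_eq_mul]
      constructor <;> nlinarith [hx.2.1.1, hx.2.1.2, hy.2.1.1, hy.2.1.2]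
  · intro x hx y hy a b ha hb hab
    refine ⟨?_, ?_, hS x y hx.2.2 hy.2.2 a b ha hb hab⟩
    · simp only [PiLp.add_apply, PiLp.smul_apply, smul_eq_mul]
      constructor <;> nlinarith [hx.1.1, hx.1.2, hy.1.1, hy.1.2]
    · simp only [PiLp.add_apply, PiLp.smul_apply, smul_eq_mul]
      constructor <;> nlinarith [hx.2.1.1, hx.2.1.2, hy.2.1.1, hy.2.1.2]
  · exact convex_singleton _

lemma disjoint_A (i j : Fin (k + 3)) (hij : i ≠ j) : Disjoint (A i) (A j) := by
  rw [Set.disjoint_left]
  intro x hi hj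
  rw [mem_A_iff] at hi hj
  have hne : (i : ℕ) ≠ (j : ℕ) := fun h => hij (Fin.ext h)
  rcases hi with ⟨h, hi⟩ | ⟨h, hi⟩ | ⟨h, hi⟩ | ⟨h, hi⟩ <;>
    rcases hj with ⟨h', hj⟩ | ⟨h', hj⟩ | ⟨h', hj⟩ | ⟨h', hj⟩
  · omega
  · linarith [hi.1.1, hj.1.1, hj.2.1.2]
  · linarith [hi.1.1, hj.1.2]
  · rw [hj, pt_zero] at hi
    have : (3 : ℝ) ≤ (j : ℕ) := by exact_mod_cast h'
    linarith [hi.1.2]
  · linarith [hj.1.1, hi.1.1, hi.2.1.2]
  · omega
  · linarith [hi.1.1, hi.2.1.1, hj.2.1.2]
  · rw [hj, pt_zero, pt_one] at hi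
    have : (3 : ℝ) ≤ (j : ℕ) := by exact_mod_cast h'
    linarith [hi.1.1]
  · linarith [hj.1.1, hi.1.2]
  · linarith [hj.1.1, hj.2.1.1, hi.2.1.2]
  · omega
  · rw [hj, pt_zero, pt_one] at hi
    linarith [hi.2.1.2]
  · rw [hi, pt_zero] at hj
    have : (3 : ℝ) ≤ (i : ℕ) := by exact_mod_cast h
    linarith [hj.1.2]
  · rw [hi, pt_zero, pt_one] at hj
    have : (3 : ℝ) ≤ (i : ℕ) := by exact_mod_cast h
    linarith [hj.1.1]
  · rw [hi, pt_zero, pt_one] at hj
    linarith [hj.2.1.2]
  · have h1 : (pt (i : ℕ) 0 : E (k + 3)) 0 = (pt (j : ℕ) 0 : E (k + 3)) 0 := by rw [← hi, ← hj]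
    rw [pt_zero, pt_zero] at h1
    exact hne (Nat.cast_injective h1)

/-- a convex subset of the visual hull cannot contain points strictly on both sides of one of the
separating hyperplanes -/
lemma not_both (i : ℕ) (hi : i < k + 3) (C : Set (E (k + 3))) (hC : Convex ℝ C)
    (hsub : C ⊆ visualHull (⋃ j, A j)) (x y : E (k + 3)) (hx : x ∈ C) (hy : y ∈ C)
    (h1 : inner ℝ (u i) x < lev i) (h2 : lev i < inner ℝ (u i) y) : False := by
  obtain ⟨α, hα⟩ : ∃ α, α = inner ℝ (u i) x := ⟨_, rfl⟩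
  obtain ⟨β, hβ⟩ : ∃ β, β = inner ℝ (u i) y := ⟨_, rfl⟩
  rw [← hα] at h1
  rw [← hβ] at h2
  have hd : 0 < β - α := by linarith
  set s : ℝ := (lev i - α) / (β - α) with hs
  have hs0 : 0 ≤ s := div_nonneg (by linarith) hd.le
  have hs1 : s ≤ 1 := by rw [hs, div_le_one hd]; linarith
  have hz : (1 - s) • x + s • y ∈ C := hC hx hy (by linarith) hs0 (by ring)
  obtain ⟨w, hw, hw'⟩ := mem_visualHull.mp (hsub hz) (u i) (u_ne_zero i)
  rw [Set.mem_iUnion] at hw
  obtain ⟨j, hj⟩ := hw
  refine miss i hi j w hj ?_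
  rw [hw', inner_add_right, inner_smul_right, inner_smul_right, ← hα, ← hβ]
  have : s * (β - α) = lev i - α := div_mul_cancel₀ _ hd.ne'
  linarith

end Construction

/-- **Q1 of MP_d086ed is false, for every `n ≥ 3`.**  There are `n` nonempty, pairwise disjoint
convex (even compact) sets in `E_n` such that the visual hull of their union is not a union of `n`
convex sets. -/
theorem result : ∀ n : ℕ, 3 ≤ n →
    ∃ A : Fin n → Set (E n),
      (∀ i, (A i).Nonempty ∧ Convex ℝ (A i) ∧ IsCompact (A i)) ∧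
      (∀ i j, i ≠ j → Disjoint (A i) (A j)) ∧
      ¬ ∃ C : Fin n → Set (E n), (∀ i, Convex ℝ (C i)) ∧ visualHull (⋃ i, A i) = ⋃ i, C i := by
  intro n hn
  obtain ⟨k, rfl⟩ : ∃ k, n = k + 3 := ⟨n - 3, by omega⟩
  refine ⟨A, fun i => ⟨⟨_, p_mem i⟩, convex_A i, ?_⟩, disjoint_A, ?_⟩
  · -- compactness
    refine Metric.isCompact_of_isClosed_isBounded ?_ ?_
    · have hc : ∀ i : Fin (k + 3), Continuous fun x : E (k + 3) => x i := fun i => by fun_prop
      have hSm : IsClosed {x : E (k + 3) | Small x} := by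
        have : {x : E (k + 3) | Small x} = ⋂ i : Fin (k + 3), ⋂ (_ : i ≠ 0), ⋂ (_ : i ≠ 1),
            {x : E (k + 3) | -1 ≤ x i ∧ x i ≤ 1} := by
          ext x; simp [Small]
        rw [this]
        refine isClosed_iInter fun i => isClosed_iInter fun _ => isClosed_iInter fun _ => ?_
        exact (isClosed_le continuous_const (hc i)).inter (isClosed_le (hc i) continuous_const)
      unfold A
      split_ifs
      · refine ((isClosed_le continuous_const (hc 0)).inter
          (isClosed_le (hc 0) continuous_const)).inter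
          (((isClosed_le continuous_const (hc 1)).inter
          (isClosed_le (hc 1) continuous_const)).inter hSm)
      · refine ((isClosed_le continuous_const ((hc 1).sub (hc 0))).inter
          (isClosed_le ((hc 1).sub (hc 0)) continuous_const)).inter
          (((isClosed_le continuous_const ((hc 0).add (hc 1))).inter
          (isClosed_le ((hc 0).add (hc 1)) continuous_const)).inter hSm)
      · refine ((isClosed_le continuous_const (hc 0)).inter
          (isClosed_le (hc 0) continuous_const)).inter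
          (((isClosed_le continuous_const (hc 1)).inter
          (isClosed_le (hc 1) continuous_const)).inter hSm)
      · exact isClosed_singleton
    · have hb : ∀ x ∈ A i, ∀ l : Fin (k + 3), ‖x l‖ ≤ max 3 ((i : ℕ) : ℝ) := by
        intro x hx l
        rw [mem_A_iff] at hx
        rw [Real.norm_eq_abs, abs_le]
        have hm3 : (3 : ℝ) ≤ max 3 ((i : ℕ) : ℝ) := le_max_left _ _
        by_cases l0 : l = 0
        · subst l0
          rcases hx with ⟨_, h⟩ | ⟨_, h⟩ | ⟨_, h⟩ | ⟨_, h⟩
          · constructor <;> linarith [h.1.1, h.1.2]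
          · constructor <;> linarith [h.1.1, h.1.2, h.2.1.1, h.2.1.2]
          · constructor <;> linarith [h.1.1, h.1.2]
          · rw [h, pt_zero]
            have : ((i : ℕ) : ℝ) ≤ max 3 ((i : ℕ) : ℝ) := le_max_right _ _
            have h0 : (0 : ℝ) ≤ ((i : ℕ) : ℝ) := Nat.cast_nonneg _
            constructor <;> linarith
        by_cases l1 : l = 1
        · subst l1
          rcases hx with ⟨_, h⟩ | ⟨_, h⟩ | ⟨_, h⟩ | ⟨_, h⟩
          · constructor <;> linarith [h.2.1.1, h.2.1.2]
          · constructor <;> linarith [h.1.1, h.1.2, h.2.1.1, h.2.1.2]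
          · constructor <;> linarith [h.2.1.1, h.2.1.2]
          · rw [h, pt_one]
            constructor <;> linarith
        · rcases hx with ⟨_, h⟩ | ⟨_, h⟩ | ⟨_, h⟩ | ⟨_, h⟩
          · have := h.2.2 l l0 l1
            constructor <;> linarith [this.1, this.2]
          · have := h.2.2 l l0 l1
            constructor <;> linarith [this.1, this.2]
          · have := h.2.2 l l0 l1
            constructor <;> linarith [this.1, this.2]
          · rw [h, pt_other _ _ l l0 l1]
            constructor <;> linarith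
      rw [isBounded_iff_forall_norm_le]
      refine ⟨√(∑ _l : Fin (k + 3), (max 3 ((i : ℕ) : ℝ)) ^ 2), fun x hx => ?_⟩
      rw [EuclideanSpace.norm_eq]
      refine Real.sqrt_le_sqrt (Finset.sum_le_sum fun l _ => ?_)
      exact pow_le_pow_left₀ (norm_nonneg _) (hb x hx l) 2
  · rintro ⟨C, hC, hU⟩
    -- the `n + 1` marked points
    have hmark : ∀ m : Option (Fin (k + 3)), ∃ i : Fin (k + 3),
        (m.elim (0 : E (k + 3)) fun j => p (j : ℕ)) ∈ C i := by
      intro m
      have : (m.elim (0 : E (k + 3)) fun j => p (j : ℕ)) ∈ visualHull (⋃ j, A j) := by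
        cases m with
        | none => exact zero_mem
        | some j => exact subset_visualHull _ (Set.mem_iUnion.mpr ⟨j, p_mem j⟩)
      rw [hU] at this
      exact Set.mem_iUnion.mp this
    choose f hf using hmark
    have hsub : ∀ i, C i ⊆ visualHull (⋃ j, A j) := fun i => by
      rw [hU]; exact Set.subset_iUnion C i
    obtain ⟨m, m', hmm, hfm⟩ := Fintype.exists_ne_map_eq_of_card_lt f (by simp)
    have h1 := hf m
    have h2 := hf m'
    rw [← hfm] at h2
    cases m with
    | none =>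
      cases m' with
      | none => exact hmm rfl
      | some j => exact not_both j j.2 (C _) (hC _) (hsub _) _ _ h1 h2 (below_zero _) (above _)
    | some i =>
      cases m' with
      | none => exact not_both i i.2 (C _) (hC _) (hsub _) _ _ h2 h1 (below_zero _) (above _)
      | some j =>
        have hne : (i : ℕ) ≠ (j : ℕ) := fun h => hmm (by rw [Fin.ext h])
        rcases lt_or_gt_of_ne hne with h | h
        · exact not_both j j.2 (C _) (hC _) (hsub _) _ _ h1 h2 (below _ _ h) (above _)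
        · exact not_both i i.2 (C _) (hC _) (hsub _) _ _ h2 h1 (below _ _ h) (above _)

end Pool.Agent.Results.MP_d086ed_co.NotUnion
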